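import Pool.Agent.J6H9.PL.Stm2

/-!
# Replacing one coordinate by a monotone function of it is a homeomorphism
-/

set_option autoImplicit false

open Filter Topology
open Pool.Agent.J6H45.CoordRestr

namespace Pool.Agent.J6H84.PL

variable {n : ℕ}

theorem bij {i : Fin n} {σ δ : ℝ} (hσ : σ = 1 ∨ σ = -1) (hδ : 0 < δ)
    {G : E n → ℝ} (hG : Continuous G)
    (hmono : ∀ x : E n, Monotone fun s : ℝ => G (x + s • ee i)) :
    Function.Bijective (replace i σ δ G) := by
  have hσσ : σ * σ = 1 := by rcases hσ with h | h <;> rw [h] <;> norm_num
  -- strict monotonicity along lines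
  have hstrict : ∀ x : E n, StrictMono fun s : ℝ => G (x + s • ee i) + δ * (x + s • ee i) i := by
    intro x s t hst
    have h1 := hmono x hst.le
    simp only at h1 ⊢
    have h2 : (x + s • ee i) i = x i + s := by simp
    have h3 : (x + t • ee i) i = x i + t := by simp
    rw [h2, h3]
    nlinarith
  constructor
  · intro x y hxy
    have hne : ∀ j, j ≠ i → x j = y j := by
      intro j hj
      have := congrArg (fun z : E n => z j) hxy
      simpa only [replace_ne hj] using this
    have heq : y = x + (y i - x i) • ee i := by
      ext j
      by_cases hj : j = i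
      · subst hj; simp
      · simp [hj, hne j hj]
    have h1 := congrArg (fun z : E n => z i) hxy
    simp only [replace_same] at h1
    have h2 : G x + δ * x i = G y + δ * y i := by
      have := congrArg (fun r => σ * r) h1
      simp only [← mul_assoc, hσσ, one_mul] at this
      exact this
    have h3 : (fun s : ℝ => G (x + s • ee i) + δ * (x + s • ee i) i) 0
        = (fun s : ℝ => G (x + s • ee i) + δ * (x + s • ee i) i) (y i - x i) := by
      simp only [← heq]
      simpa using h2
    have h4 := (hstrict x).injective h3
    rw [heq, ← h4]
    simp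
  · intro y
    -- the line through `y`
    have hcont : Continuous fun s : ℝ => G (y + s • ee i) + δ * (y + s • ee i) i := by
      fun_prop
    have htop : Filter.Tendsto (fun s : ℝ => G (y + s • ee i) + δ * (y + s • ee i) i)
        Filter.atTop Filter.atTop := by
      have h1 : Filter.Tendsto (fun s : ℝ => G y + δ * (y i + s)) Filter.atTop Filter.atTop := by
        apply Filter.tendsto_atTop_add_const_left
        apply Filter.Tendsto.const_mul_atTop hδ
        exact Filter.tendsto_atTop_add_const_left _ _ Filter.tendsto_id
      refine Filter.tendsto_atTop_mono' _ ?_ h1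
      filter_upwards [Filter.eventually_ge_atTop 0] with s hs
      have h2 := hmono y hs
      simp only [zero_smul, add_zero] at h2
      have h3 : (y + s • ee i) i = y i + s := by simp
      rw [h3]
      linarith
    have hbot : Filter.Tendsto (fun s : ℝ => G (y + s • ee i) + δ * (y + s • ee i) i)
        Filter.atBot Filter.atBot := by
      have h1 : Filter.Tendsto (fun s : ℝ => G y + δ * (y i + s)) Filter.atBot Filter.atBot := by
        apply Filter.tendsto_atBot_add_const_left
        apply Filter.Tendsto.const_mul_atBot hδ
        exact Filter.tendsto_atBot_add_const_left _ _ Filter.tendsto_id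
      refine Filter.tendsto_atBot_mono' _ ?_ h1
      filter_upwards [Filter.eventually_le_atBot 0] with s hs
      have h2 := hmono y hs
      simp only [zero_smul, add_zero] at h2
      have h3 : (y + s • ee i) i = y i + s := by simp
      rw [h3]
      linarith
    obtain ⟨s, hs⟩ := hcont.surjective htop hbot (σ * y i)
    refine ⟨y + s • ee i, ?_⟩
    ext j
    by_cases hj : j = i
    · subst hj
      rw [replace_same]
      simp only at hs
      rw [hs, ← mul_assoc, hσσ, one_mul]
    · rw [replace_ne hj]
      simp [hj]

theorem cont (i : Fin n) (σ δ : ℝ) {G : E n → ℝ} (hG : Continuous G) :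
    Continuous (replace i σ δ G) := by
  unfold replace
  refine (PiLp.continuous_toLp 2 _).comp (continuous_pi fun j => ?_)
  by_cases hj : j = i
  · simp only [hj, if_true]
    fun_prop
  · simp only [hj, if_false]
    fun_prop

theorem main : Pool.Agent.J6H9.PL.S_Rep := by
  intro n i σ δ hσ hδ G hG hmono
  have hσσ : σ * σ = 1 := by rcases hσ with h | h <;> rw [h] <;> norm_num
  let e := Equiv.ofBijective _ (bij hσ hδ hG hmono)
  have he : ∀ x, e x = replace i σ δ G x := fun x => rfl
  have hec : Continuous e := cont i σ δ hG
  have hsc : Continuous e.symm := by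
    rw [continuous_iff_continuousAt]
    intro y₀
    set x₀ := e.symm y₀ with hx₀
    have hy₀ : y₀ = replace i σ δ G x₀ := by rw [← he, hx₀, Equiv.apply_symm_apply]
    -- the point with the coordinates `j ≠ i` of `y` and the coordinate `i` of `x₀`
    set x₁ : E n → E n := fun y => y + (x₀ i - y i) • ee i with hx₁
    have hx₁c : Continuous x₁ := by fun_prop
    have hx₁0 : x₁ y₀ = x₀ := by
      ext j
      by_cases hj : j = i
      · subst hj; simp [hx₁]
      · have : y₀ j = x₀ j := by rw [hy₀, replace_ne hj]
        simp [hx₁, hj, this]
    have hx₁i : ∀ y, x₁ y i = x₀ i := fun y => by simp [hx₁]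
    set ψ : E n → ℝ := fun y => σ * y i - (G (x₁ y) + δ * x₁ y i) with hψ
    have hψc : Continuous ψ := by fun_prop
    have hψ0 : ψ y₀ = 0 := by
      simp only [hψ, hx₁0]
      have : y₀ i = σ * (G x₀ + δ * x₀ i) := by
        conv_lhs => rw [hy₀]
        rw [replace_same]
      rw [this, ← mul_assoc, hσσ, one_mul, sub_self]
    have key : ∀ y, dist (x₁ y) (e.symm y) ≤ δ⁻¹ * |ψ y| := by
      intro y
      set x := e.symm y with hx
      have hyx : y = replace i σ δ G x := by rw [← he, hx, Equiv.apply_symm_apply]
      have hxx : x = x₁ y + (x i - x₀ i) • ee i := by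
        ext j
        by_cases hj : j = i
        · subst hj; simp [hx₁]
        · have : y j = x j := by
            conv_lhs => rw [hyx]
            rw [replace_ne hj]
          simp [hx₁, hj, this]
      have hyi : σ * y i = G x + δ * x i := by
        conv_lhs => rw [hyx]
        rw [replace_same, ← mul_assoc, hσσ, one_mul]
      have hψy : ψ y = (G x - G (x₁ y)) + δ * (x i - x₀ i) := by
        simp only [hψ, hyi, hx₁i]
        ring
      have hd : dist (x₁ y) x = |x i - x₀ i| := by
        rw [dist_comm, dist_eq_norm]
        conv_lhs => rw [hxx]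
        rw [add_sub_cancel_left, norm_smul, PiLp.norm_single, norm_one, mul_one, Real.norm_eq_abs]
      rw [hd, inv_mul_eq_div, le_div_iff₀ hδ, mul_comm]
      have hm := hmono (x₁ y)
      rcases le_total 0 (x i - x₀ i) with h | h
      · have h1 := hm h
        simp only [zero_smul, add_zero] at h1
        rw [← hxx] at h1
        rw [abs_of_nonneg h]
        refine le_trans ?_ (le_abs_self _)
        rw [hψy]
        linarith
      · have h1 := hm h
        simp only [zero_smul, add_zero] at h1
        rw [← hxx] at h1
        rw [abs_of_nonpos h]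
        refine le_trans ?_ (neg_le_abs _)
        rw [hψy]
        linarith
    have h1 : Tendsto x₁ (𝓝 y₀) (𝓝 x₀) := by
      have := hx₁c.tendsto y₀
      rwa [hx₁0] at this
    have h2 : Tendsto (fun y => δ⁻¹ * |ψ y|) (𝓝 y₀) (𝓝 0) := by
      have h3 : Continuous fun y => δ⁻¹ * |ψ y| := by fun_prop
      have := h3.tendsto y₀
      simpa [hψ0] using this
    exact h1.congr_dist (squeeze_zero (fun _ => dist_nonneg) key h2)
  exact ⟨{ toEquiv := e, continuous_toFun := hec, continuous_invFun := hsc }, fun x => rfl⟩

end Pool.Agent.J6H84.PL

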